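import Mathlib

/-!
The two-way infinite path is a vertex transitive graph which is sub scale invariant: all its
`k`-net graphs, for all `k ≥ 1`, have best rough isometry constant exactly one.
-/

set_option autoImplicit false

namespace Pool.Agent.Results.MP_6f70ff_gt.InfinitePath

open Filter Topology

/-- A `k`-net of the graph `G`: a set of vertices which is maximal under inclusion among the sets
whose distinct members are at distance at least `k`. -/
def IsNet {V : Type*} (G : SimpleGraph V) (k : ℕ) (N : Set V) : Prop :=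
  Maximal (fun M : Set V => ∀ u ∈ M, ∀ v ∈ M, u ≠ v → k ≤ G.dist u v) N

/-- The `k`-net graph on the set `N`: its vertices are the elements of `N`, and two of them are
adjacent when their distance in `G` is positive and at most `2 * k`. -/
def netGraph {V : Type*} (G : SimpleGraph V) (k : ℕ) (N : Set V) : SimpleGraph N where
  Adj u v := 0 < G.dist (u : V) (v : V) ∧ G.dist (u : V) (v : V) ≤ 2 * k
  symm := ⟨fun u v h => by rwa [G.dist_comm (u := (v : V))]⟩
  loopless := ⟨fun u h => by simp at h⟩

/-- `f` is a `C`-rough isometry from the vertices of `G` to the vertices of `H`, with the graph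
distances. -/
def IsRoughIsometry {V W : Type*} (G : SimpleGraph V) (H : SimpleGraph W) (C : ℝ) (f : V → W) :
    Prop :=
  (∀ x y : V, C⁻¹ * (H.dist (f x) (f y) : ℝ) - C ≤ (G.dist x y : ℝ) ∧
    (G.dist x y : ℝ) ≤ C * (H.dist (f x) (f y) : ℝ) + C) ∧
  ∀ y : W, ∃ x : V, (H.dist (f x) y : ℝ) < C

/-- The infimum of the `C > 0` for which a `C`-rough isometry from `G` to `H` exists (infinite if
there is none). -/
noncomputable def bestConst {V W : Type*} (G : SimpleGraph V) (H : SimpleGraph W) : ENNReal :=
  ⨅ C ∈ {C : ℝ | 0 < C ∧ ∃ f : V → W, IsRoughIsometry G H C f}, ENNReal.ofReal C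

/-- `G` is sub scale invariant: for every choice of `k`-nets, one for each `k ≥ 1`, the best rough
isometry constants of `G` and its `k`-net graphs tend to one. -/
def IsSubScaleInvariant {V : Type*} (G : SimpleGraph V) : Prop :=
  ∀ N : ℕ → Set V, (∀ k, 1 ≤ k → IsNet G k (N k)) →
    Tendsto (fun k => bestConst G (netGraph G k (N k))) atTop (𝓝 1)

/-- `G` is vertex transitive. -/
def IsVertexTransitive {V : Type*} (G : SimpleGraph V) : Prop :=
  ∀ u v : V, ∃ φ : G ≃g G, φ u = v

/-- The two-way infinite path. -/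
def path : SimpleGraph ℤ where
  Adj a b := |a - b| = 1
  symm := ⟨fun a b h => by rwa [abs_sub_comm]⟩
  loopless := ⟨fun a h => by simp at h⟩

theorem path_adj {a b : ℤ} : path.Adj a b ↔ |a - b| = 1 := Iff.rfl

theorem walk_up (a : ℤ) (n : ℕ) : ∃ w : path.Walk a (a + n), w.length = n := by
  induction n with
  | zero => exact ⟨(SimpleGraph.Walk.nil : path.Walk a a).copy rfl (by simp), by simp⟩
  | succ n ih =>
    obtain ⟨w, hw⟩ := ih
    have h : path.Adj (a + n) (a + (n + 1 : ℕ)) := by
      rw [path_adj]; push_cast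
      rw [show a + (n : ℤ) - (a + ((n : ℤ) + 1)) = -1 by ring]; rfl
    exact ⟨w.concat h, by rw [SimpleGraph.Walk.length_concat, hw]⟩

theorem path_reach (a b : ℤ) : path.Reachable a b := by
  rcases le_total a b with h | h
  · obtain ⟨n, hn⟩ := Int.le.dest h
    rw [← hn]
    exact ⟨(walk_up a n).choose⟩
  · obtain ⟨n, hn⟩ := Int.le.dest h
    rw [← hn]
    exact ⟨(walk_up b n).choose.reverse⟩

theorem path_connected : path.Connected :=
  { preconnected := path_reach, nonempty := ⟨0⟩ }

theorem walk_lower {a b : ℤ} (w : path.Walk a b) : |a - b| ≤ w.length := by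
  induction w with
  | nil => simp
  | @cons a c b h w ih =>
    rw [path_adj] at h
    rw [SimpleGraph.Walk.length_cons]
    have := abs_sub_le a c b
    push_cast
    linarith

theorem path_dist (a b : ℤ) : (path.dist a b : ℤ) = |a - b| := by
  apply le_antisymm
  · rcases le_total a b with h | h
    · obtain ⟨n, hn⟩ := Int.le.dest h
      obtain ⟨w, hw⟩ := walk_up a n
      rw [← hn]
      have := SimpleGraph.dist_le w
      rw [hw] at this
      have e : |a - (a + (n : ℤ))| = n := by
        rw [show a - (a + (n : ℤ)) = -(n : ℤ) by ring, abs_neg, abs_of_nonneg (by positivity)]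
      rw [e]
      exact_mod_cast this
    · obtain ⟨n, hn⟩ := Int.le.dest h
      obtain ⟨w, hw⟩ := walk_up b n
      rw [← hn]
      have := SimpleGraph.dist_le w
      rw [hw] at this
      have e : |b + (n : ℤ) - b| = n := by
        rw [show b + (n : ℤ) - b = (n : ℤ) by ring, abs_of_nonneg (by positivity)]
      rw [e, SimpleGraph.dist_comm]
      exact_mod_cast this
  · obtain ⟨w, hw⟩ := path_connected.exists_walk_length_eq_dist a b
    rw [← hw]
    exact walk_lower w

theorem path_transitive : IsVertexTransitive path := by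
  intro u v
  refine ⟨⟨Equiv.addRight (v - u), ?_⟩, ?_⟩
  · intro a b
    simp [path_adj]
  · show u + (v - u) = v
    ring

theorem path_locally_finite (v : ℤ) : (path.neighborSet v).Finite := by
  apply (Set.toFinite ({v - 1, v + 1} : Set ℤ)).subset
  intro w hw
  rw [SimpleGraph.mem_neighborSet, path_adj] at hw
  simp only [Set.mem_insert_iff, Set.mem_singleton_iff]
  rcases abs_eq (by norm_num : (0 : ℤ) ≤ 1) |>.mp hw with h | h
  · left; omega
  · right; omega

/-- what we use of nets of the infinite path -/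
structure Net (k : ℕ) (N : Set ℤ) : Prop where
  pos : 1 ≤ k
  cover : ∀ z : ℤ, ∃ u ∈ N, |z - u| < k

theorem net_of {k : ℕ} {N : Set ℤ} (hk : 1 ≤ k) (h : IsNet path k N) : Net k N := by
  refine ⟨hk, fun z => ?_⟩
  by_contra hz
  push Not at hz
  have hzN : z ∉ N := by
    intro hzN
    have := hz z hzN
    simp at this
    omega
  have hM := h.2 (y := insert z N) (by
    intro u hu v hv huv
    have key : ∀ x ∈ N, k ≤ path.dist z x := by
      intro x hx
      have := hz x hx
      rw [← path_dist] at this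
      exact_mod_cast this
    rcases Set.mem_insert_iff.mp hu with hu1 | hu1
    · rcases Set.mem_insert_iff.mp hv with hv1 | hv1
      · exact absurd (hu1.trans hv1.symm) huv
      · rw [hu1]; exact key v hv1
    · rcases Set.mem_insert_iff.mp hv with hv1 | hv1
      · rw [hv1, SimpleGraph.dist_comm]; exact key u hu1
      · exact h.1 u hu1 v hv1 huv) (Set.subset_insert z N)
  exact hzN (hM (Set.mem_insert z N))

theorem Net.neg {k : ℕ} {N : Set ℤ} (h : Net k N) : Net k {z | -z ∈ N} := by
  refine ⟨h.pos, fun z => ?_⟩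
  obtain ⟨u, hu, h'⟩ := h.cover (-z)
  refine ⟨-u, by simpa using hu, ?_⟩
  rw [show z - -u = -(-z - u) by ring, abs_neg]
  exact h'

/-- the greedy chain to the right -/
theorem exists_next {k : ℕ} {N : Set ℤ} (h : Net k N) (u : ℤ) :
    ∃ w ∈ N, u < w ∧ w ≤ u + 2 * k ∧ ∀ x ∈ N, x ≤ u + 2 * k → x ≤ w := by
  obtain ⟨w, hw, h1⟩ := h.cover (u + k)
  rw [abs_lt] at h1
  have hb : BddAbove {x : ℤ | x ∈ N ∧ x ≤ u + 2 * k} := ⟨u + 2 * k, fun x hx => hx.2⟩
  have hne : {x : ℤ | x ∈ N ∧ x ≤ u + 2 * k}.Nonempty := ⟨w, hw, by omega⟩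
  have hm := Int.csSup_mem hne hb
  refine ⟨sSup {x : ℤ | x ∈ N ∧ x ≤ u + 2 * k}, hm.1, ?_, hm.2, ?_⟩
  · have := le_csSup hb (show w ∈ {x : ℤ | x ∈ N ∧ x ≤ u + 2 * k} from ⟨hw, by omega⟩)
    omega
  · intro x hx hx2
    exact le_csSup hb ⟨hx, hx2⟩

theorem exists_chain {k : ℕ} {N : Set ℤ} (h : Net k N) (u : ℤ) (hu : u ∈ N) :
    ∃ a : ℕ → ℤ, a 0 = u ∧ (∀ n, a n ∈ N) ∧ (∀ n, a n < a (n + 1)) ∧
      (∀ n, a (n + 1) ≤ a n + 2 * k) ∧ ∀ n, ∀ x ∈ N, x ≤ a n + 2 * k → x ≤ a (n + 1) := by
  choose g hg1 hg2 hg3 hg4 using exists_next h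
  refine ⟨fun n => Nat.rec u (fun _ x => g x) n, rfl, ?_, fun n => hg2 _, fun n => hg3 _,
    fun n => hg4 _⟩
  intro n
  cases n with
  | zero => exact hu
  | succ n => exact hg1 _

theorem chain_strict {a : ℕ → ℤ} (h : ∀ n, a n < a (n + 1)) : StrictMono a :=
  strictMono_nat_of_lt_succ h

theorem chain_ge {a : ℕ → ℤ} (h : ∀ n, a n < a (n + 1)) (n : ℕ) : a 0 + n ≤ a n := by
  induction n with
  | zero => simp
  | succ n ih => have := h n; push_cast; omega

/-- `y ≥ a 0` lies between two consecutive terms -/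
theorem chain_between {a : ℕ → ℤ} (h : ∀ n, a n < a (n + 1)) {y : ℤ} (hy : a 0 ≤ y) :
    ∃ n, a n ≤ y ∧ y < a (n + 1) := by
  have hex : ∃ n, y < a n := ⟨(y - a 0 + 1).toNat, by
    have := chain_ge h (y - a 0 + 1).toNat
    have h2 : ((y - a 0 + 1).toNat : ℤ) = y - a 0 + 1 := Int.toNat_of_nonneg (by omega)
    omega⟩
  classical
  have h1 := Nat.find_spec hex
  have h0 : Nat.find hex ≠ 0 := by
    intro h0
    rw [h0] at h1
    omega
  obtain ⟨m, hm⟩ := Nat.exists_eq_succ_of_ne_zero h0
  refine ⟨m, ?_, ?_⟩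
  · have := Nat.find_min hex (m := m) (by omega)
    omega
  · rw [hm] at h1; exact h1

section
variable {k : ℕ} {N : Set ℤ}

theorem net_adj {u v : N} : (netGraph path k N).Adj u v ↔
    (u : ℤ) ≠ v ∧ |(u : ℤ) - v| ≤ 2 * k := by
  show (0 < path.dist (u : ℤ) (v : ℤ) ∧ path.dist (u : ℤ) (v : ℤ) ≤ 2 * k) ↔ _
  have h := path_dist (u : ℤ) v
  constructor
  · rintro ⟨h1, h2⟩
    refine ⟨fun h3 => ?_, by rw [← h]; exact_mod_cast h2⟩
    rw [h3, sub_self, abs_zero] at h
    rw [h3] at h1
    omega
  · rintro ⟨h1, h2⟩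
    have h3 : 0 < |(u : ℤ) - v| := abs_pos.mpr (sub_ne_zero.mpr h1)
    rw [← h] at h2 h3
    exact ⟨by exact_mod_cast h3, by exact_mod_cast h2⟩

/-- one step in the net graph -/
theorem step_le {u v : N} (h : (u : ℤ) ≤ v) (h2 : (v : ℤ) ≤ u + 2 * k) :
    ∃ w : (netGraph path k N).Walk u v, w.length ≤ 1 := by
  by_cases huv : u = v
  · subst huv
    exact ⟨.nil, by simp⟩
  · have : (netGraph path k N).Adj u v := by
      rw [net_adj]
      refine ⟨fun h' => huv (Subtype.ext h'), ?_⟩
      rw [abs_sub_comm, abs_of_nonneg (by omega)]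
      omega
    exact ⟨.cons this .nil, by simp⟩

end

/-- The data used in the main argument: the two greedy chains from one point of the net. -/
theorem main {k : ℕ} {N : Set ℤ} (h : Net k N) :
    (netGraph path k N).Connected ∧ ∃ f : ℤ → N,
      (∀ p q : ℤ, p ≤ q → ((netGraph path k N).dist (f p) (f q) : ℤ) ≤ q - p) ∧
      (∀ p q : ℤ, p ≤ q → q - p ≤ ((netGraph path k N).dist (f p) (f q) : ℤ) + 1) ∧
      ∀ y : N, ∃ x : ℤ, (netGraph path k N).dist (f x) y ≤ 1 := by
  obtain ⟨u, hu, -⟩ := h.cover 0
  obtain ⟨a, a0, aN, a1, a2, a3⟩ := exists_chain h u hu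
  obtain ⟨b', b0', bN', b1', b2', b3'⟩ := exists_chain h.neg (-u) (by simpa using hu)
  -- the chain to the left
  obtain ⟨b, hb⟩ : ∃ b : ℕ → ℤ, ∀ n, b n = -b' n := ⟨_, fun n => rfl⟩
  have b0 : b 0 = u := by rw [hb, b0']; ring
  have bN : ∀ n, b n ∈ N := fun n => by rw [hb]; exact bN' n
  have b1 : ∀ n, b (n + 1) < b n := fun n => by rw [hb, hb]; have := b1' n; omega
  have b2 : ∀ n, b n - 2 * k ≤ b (n + 1) := fun n => by rw [hb, hb]; have := b2' n; omega
  have b3 : ∀ n, ∀ x ∈ N, b n - 2 * k ≤ x → b (n + 1) ≤ x := fun n x hx hx2 => by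
    have := b3' n (-x) (by simpa using hx) (by rw [hb] at hx2; omega)
    rw [hb]; omega
  -- the map
  let f : ℤ → N := fun n => if 0 ≤ n then ⟨a n.toNat, aN _⟩ else ⟨b (-n).toNat, bN _⟩
  have fpos : ∀ n : ℕ, (f (n : ℤ) : ℤ) = a n := by
    intro n
    simp [f]
  have fneg : ∀ n : ℕ, (f (-(n : ℤ)) : ℤ) = b n := by
    intro n
    rcases Nat.eq_zero_or_pos n with rfl | hn
    · have := fpos 0
      simp only [Nat.cast_zero, neg_zero] at this ⊢
      rw [this, a0, b0]
    · have : ¬ (0 ≤ -(n : ℤ)) := by omega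
      show ((if 0 ≤ -(n : ℤ) then (⟨a (-(n : ℤ)).toNat, aN _⟩ : N)
        else ⟨b (- -(n : ℤ)).toNat, bN _⟩ : N) : ℤ) = b n
      rw [if_neg this]
      simp
  -- consecutive values are adjacent
  have hstep : ∀ n : ℤ, (f n : ℤ) ≤ f (n + 1) ∧ (f (n + 1) : ℤ) ≤ f n + 2 * k := by
    intro n
    rcases le_or_gt 0 n with hn | hn
    · obtain ⟨m, rfl⟩ := Int.eq_ofNat_of_zero_le hn
      have e1 := fpos m
      have e2 := fpos (m + 1)
      push_cast at e2
      have := a1 m
      have := a2 m
      rw [e1, e2]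
      omega
    · obtain ⟨m, hm⟩ := Int.eq_ofNat_of_zero_le (show 0 ≤ -n - 1 by omega)
      have e1 := fneg (m + 1)
      have e2 := fneg m
      have h1 : n = -((m + 1 : ℕ) : ℤ) := by push_cast; omega
      have h2 : n + 1 = -((m : ℕ) : ℤ) := by omega
      rw [h2, e2, h1, e1]
      have := b1 m
      have := b2 m
      omega
  have hwalk : ∀ n : ℤ, ∀ m : ℕ, ∃ w : (netGraph path k N).Walk (f n) (f (n + m)),
      w.length ≤ m := by
    intro n m
    induction m with
    | zero => exact ⟨(SimpleGraph.Walk.nil : (netGraph path k N).Walk (f n) (f n)).copy rfl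
        (by simp), by simp⟩
    | succ m ih =>
      obtain ⟨w, hw⟩ := ih
      obtain ⟨w', hw'⟩ := step_le (hstep (n + m)).1 (hstep (n + m)).2
      refine ⟨(w.append w').copy rfl (by push_cast; rw [add_assoc]), ?_⟩
      rw [SimpleGraph.Walk.length_copy, SimpleGraph.Walk.length_append]
      omega
  -- every net point is near a value
  have hcov : ∀ y : N, ∃ x : ℤ, ∃ w : (netGraph path k N).Walk (f x) y, w.length ≤ 1 := by
    intro y
    rcases le_total u (y : ℤ) with hy | hy
    · obtain ⟨n, h1, h2⟩ := chain_between a1 (y := y) (by rw [a0]; exact hy)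
      have e := fpos n
      refine ⟨n, step_le (by rw [e]; exact h1) ?_⟩
      rw [e]
      have := a2 n
      omega
    · obtain ⟨n, h1, h2⟩ := chain_between b1' (y := -(y : ℤ)) (by rw [b0']; omega)
      have e := fneg n
      obtain ⟨w, hw⟩ := step_le (k := k) (u := y) (v := f (-(n : ℤ)))
        (by rw [e, hb]; omega) (by rw [e, hb]; have := b2' n; omega)
      exact ⟨-(n : ℤ), w.reverse, by rw [SimpleGraph.Walk.length_reverse]; exact hw⟩
  have hconn : (netGraph path k N).Connected := by
    have hreach : ∀ y : N, (netGraph path k N).Reachable (f 0) y := by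
      intro y
      obtain ⟨x, w, -⟩ := hcov y
      have hx : (netGraph path k N).Reachable (f 0) (f x) := by
        rcases le_total 0 x with hx | hx
        · obtain ⟨m, rfl⟩ := Int.eq_ofNat_of_zero_le hx
          obtain ⟨w, -⟩ := hwalk 0 m
          rw [zero_add] at w
          exact ⟨w⟩
        · obtain ⟨m, hm⟩ := Int.eq_ofNat_of_zero_le (show 0 ≤ -x by omega)
          obtain ⟨w, -⟩ := hwalk x m
          rw [show x + (m : ℤ) = 0 by omega] at w
          exact ⟨w.reverse⟩
      exact hx.trans ⟨w⟩
    exact { preconnected := fun x y => (hreach x).symm.trans (hreach y), nonempty := ⟨f 0⟩ }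
  -- the clock
  let c : ℤ → ℤ := fun j => if 0 ≤ j then a j.toNat else b (-j).toNat - 1
  have cpos : ∀ n : ℕ, c (n : ℤ) = a n := by
    intro n
    simp [c]
  have cneg : ∀ n : ℕ, 1 ≤ n → c (-(n : ℤ)) = b n - 1 := by
    intro n hn
    have : ¬ (0 ≤ -(n : ℤ)) := by omega
    show (if 0 ≤ -(n : ℤ) then a (-(n : ℤ)).toNat else b (- -(n : ℤ)).toNat - 1) = b n - 1
    rw [if_neg this]
    simp
  have cstep : ∀ j : ℤ, ∀ x y : N, (x : ℤ) ≤ c j → (y : ℤ) ≤ x + 2 * k → (y : ℤ) ≤ c (j + 1) := by
    intro j x y hx hxy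
    rcases le_or_gt 0 j with hj | hj
    · obtain ⟨m, rfl⟩ := Int.eq_ofNat_of_zero_le hj
      have e1 := cpos m
      have e2 := cpos (m + 1)
      push_cast at e2
      rw [e1] at hx
      rw [e2]
      exact a3 m y y.2 (by omega)
    · obtain ⟨m, hm⟩ := Int.eq_ofNat_of_zero_le (show 0 ≤ -j - 1 by omega)
      have h1 : j = -((m + 1 : ℕ) : ℤ) := by push_cast; omega
      have h2 : j + 1 = -((m : ℕ) : ℤ) := by omega
      rw [h1, cneg (m + 1) (by omega)] at hx
      have h3 : (x : ℤ) < b m - 2 * k := by
        by_contra h4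
        have := b3 m x x.2 (by omega)
        omega
      rw [h2]
      rcases Nat.eq_zero_or_pos m with hm0 | hm0
      · subst hm0
        have := cpos 0
        simp only [Nat.cast_zero] at this
        simp only [Nat.cast_zero, neg_zero]
        rw [this, a0]
        omega
      · rw [cneg m hm0]
        omega
  have cwalk : ∀ (x y : N) (w : (netGraph path k N).Walk x y) (j : ℤ), (x : ℤ) ≤ c j →
      (y : ℤ) ≤ c (j + w.length) := by
    intro x y w
    induction w with
    | nil => intro j hj; simpa using hj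
    | @cons x z y hadj w ih =>
      intro j hj
      rw [net_adj] at hadj
      have h1 := cstep j x z hj (by
        have := (abs_le.mp hadj.2).1
        omega)
      have := ih (j + 1) h1
      rw [SimpleGraph.Walk.length_cons]
      push_cast
      rw [show j + ((w.length : ℤ) + 1) = j + 1 + w.length by ring]
      exact this
  have cmono : StrictMono c := by
    apply strictMono_int_of_lt_succ
    intro j
    rcases le_or_gt 0 j with hj | hj
    · obtain ⟨m, rfl⟩ := Int.eq_ofNat_of_zero_le hj
      have e1 := cpos m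
      have e2 := cpos (m + 1)
      push_cast at e2
      rw [e1, e2]
      exact a1 m
    · obtain ⟨m, hm⟩ := Int.eq_ofNat_of_zero_le (show 0 ≤ -j - 1 by omega)
      have h1 : j = -((m + 1 : ℕ) : ℤ) := by push_cast; omega
      have h2 : j + 1 = -((m : ℕ) : ℤ) := by omega
      rw [h2, h1, cneg (m + 1) (by omega)]
      rcases Nat.eq_zero_or_pos m with hm0 | hm0
      · subst hm0
        have := cpos 0
        simp only [Nat.cast_zero] at this
        simp only [Nat.cast_zero, neg_zero]
        rw [this, a0]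
        have := b1 0
        omega
      · rw [cneg m hm0]
        have := b1 m
        omega
  have fle : ∀ n : ℤ, (f n : ℤ) ≤ c (n + 1) := by
    intro n
    rcases le_or_gt 0 n with hn | hn
    · obtain ⟨m, rfl⟩ := Int.eq_ofNat_of_zero_le hn
      have e1 := fpos m
      have e2 := cpos (m + 1)
      push_cast at e2
      rw [e1, e2]
      exact (a1 m).le
    · obtain ⟨m, hm⟩ := Int.eq_ofNat_of_zero_le (show 0 ≤ -n - 1 by omega)
      have h1 : n = -((m + 1 : ℕ) : ℤ) := by push_cast; omega
      have h2 : n + 1 = -((m : ℕ) : ℤ) := by omega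
      rw [h2, h1, fneg]
      rcases Nat.eq_zero_or_pos m with hm0 | hm0
      · subst hm0
        have := cpos 0
        simp only [Nat.cast_zero] at this
        simp only [Nat.cast_zero, neg_zero, zero_add]
        rw [this, a0]
        have := b1 0
        rw [b0] at this
        simpa using this.le
      · rw [cneg m hm0]
        have := b1 m
        omega
  have flt : ∀ n : ℤ, c (n - 1) < (f n : ℤ) := by
    intro n
    rcases le_or_gt 1 n with hn | hn
    · obtain ⟨m, hm⟩ := Int.eq_ofNat_of_zero_le (show 0 ≤ n - 1 by omega)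
      have h1 : n = ((m + 1 : ℕ) : ℤ) := by push_cast; omega
      have h2 : n - 1 = (m : ℤ) := by omega
      rw [h2, h1, cpos, fpos]
      exact a1 m
    · obtain ⟨m, hm⟩ := Int.eq_ofNat_of_zero_le (show 0 ≤ -n by omega)
      have h1 : n = -(m : ℤ) := by omega
      have h2 : n - 1 = -((m + 1 : ℕ) : ℤ) := by push_cast; omega
      rw [h2, h1, cneg (m + 1) (by omega), fneg]
      have := b1 m
      omega
  refine ⟨hconn, f, ?_, ?_, ?_⟩
  · intro p q hpq
    obtain ⟨m, hm⟩ := Int.le.dest hpq
    obtain ⟨w, hw⟩ := hwalk p m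
    rw [← hm]
    have := SimpleGraph.dist_le w
    push_cast
    omega
  · intro p q hpq
    obtain ⟨w, hw⟩ := hconn.exists_walk_length_eq_dist (f p) (f q)
    rw [← hw]
    have h1 := cwalk _ _ w (p + 1) (fle p)
    have h2 := flt q
    have h3 := cmono.lt_iff_lt.mp (lt_of_lt_of_le h2 h1)
    omega
  · intro y
    obtain ⟨x, w, hw⟩ := hcov y
    exact ⟨x, (SimpleGraph.dist_le w).trans hw⟩

/-- the constant of a rough isometry defined on the infinite path is at least one -/
theorem one_le_of_rough {W : Type*} (H : SimpleGraph W) {C : ℝ} (hC : 0 < C) {f : ℤ → W}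
    (h : IsRoughIsometry path H C f) : 1 ≤ C := by
  by_contra hlt
  push Not at hlt
  obtain ⟨n, hn⟩ := exists_nat_gt ((C + C ^ 3) / (1 - C ^ 2))
  have hpos : 0 < 1 - C ^ 2 := by nlinarith
  rw [div_lt_iff₀ hpos] at hn
  obtain ⟨h1, h2⟩ := h.1 0 n
  have hd : (path.dist 0 (n : ℤ) : ℝ) = n := by
    have h3 := path_dist 0 n
    rw [zero_sub, abs_neg, abs_of_nonneg (by positivity)] at h3
    exact_mod_cast h3
  rw [hd] at h1 h2
  set d : ℝ := (H.dist (f 0) (f n) : ℝ) with hdd
  have h4 : d ≤ C * (n + C) := by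
    have : C⁻¹ * d ≤ n + C := by linarith
    rwa [inv_mul_le_iff₀ hC] at this
  nlinarith

/-- For every `k ≥ 1` and every `k`-net of the infinite path, the best constant is one. -/
theorem bestConst_path {k : ℕ} (hk : 1 ≤ k) {N : Set ℤ} (hN : IsNet path k N) :
    bestConst path (netGraph path k N) = 1 := by
  have hnet := net_of hk hN
  obtain ⟨hconn, f, f1, f2, f3⟩ := main hnet
  apply le_antisymm
  · apply ENNReal.le_of_forall_pos_le_add
    intro ε hε _
    have hmem : (1 + ε : ℝ) ∈ {C : ℝ | 0 < C ∧ ∃ f : ℤ → N,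
        IsRoughIsometry path (netGraph path k N) C f} := by
      have hε' : (0 : ℝ) < ε := by exact_mod_cast hε
      refine ⟨by positivity, f, ?_, ?_⟩
      · have key : ∀ p q : ℤ, p ≤ q →
            (1 + ε : ℝ)⁻¹ * ((netGraph path k N).dist (f p) (f q) : ℝ) - (1 + ε) ≤
              (path.dist p q : ℝ) ∧
            (path.dist p q : ℝ) ≤
              (1 + ε) * ((netGraph path k N).dist (f p) (f q) : ℝ) + (1 + ε) := by
          intro p q hpq
          have e1 := f1 p q hpq
          have e2 := f2 p q hpq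
          have e3 : (path.dist p q : ℤ) = q - p := by
            rw [path_dist, abs_sub_comm, abs_of_nonneg (by omega)]
          rw [← e3] at e1 e2
          have e1' : ((netGraph path k N).dist (f p) (f q) : ℝ) ≤ path.dist p q := by
            exact_mod_cast e1
          have e2' : (path.dist p q : ℝ) ≤ (netGraph path k N).dist (f p) (f q) + 1 := by
            exact_mod_cast e2
          have e4 : (0 : ℝ) ≤ ((netGraph path k N).dist (f p) (f q) : ℝ) := by positivity
          constructor
          · have : (1 + ε : ℝ)⁻¹ * ((netGraph path k N).dist (f p) (f q) : ℝ) ≤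
                1 * ((netGraph path k N).dist (f p) (f q) : ℝ) := by
              apply mul_le_mul_of_nonneg_right _ e4
              exact inv_le_one_of_one_le₀ (by linarith)
            linarith
          · nlinarith
        intro x y
        rcases le_total x y with hxy | hxy
        · exact key x y hxy
        · have := key y x hxy
          rwa [SimpleGraph.dist_comm (u := f y), SimpleGraph.dist_comm (u := y)] at this
      · intro y
        obtain ⟨x, hx⟩ := f3 y
        refine ⟨x, ?_⟩
        have : ((netGraph path k N).dist (f x) y : ℝ) ≤ 1 := by exact_mod_cast hx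
        linarith
    refine (iInf₂_le _ hmem).trans ?_
    rw [ENNReal.ofReal_add (by norm_num) (by positivity), ENNReal.ofReal_one,
      ENNReal.ofReal_coe_nnreal]
  · apply le_iInf₂
    rintro C ⟨hC, g, hg⟩
    have := one_le_of_rough _ hC hg
    rw [← ENNReal.ofReal_one]
    exact ENNReal.ofReal_le_ofReal this

/-- The two-way infinite path is an infinite, connected, locally finite, vertex transitive graph
which is sub scale invariant; moreover all its `k`-net graphs with `k ≥ 1` are connected and have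
best rough isometry constant exactly one. -/
theorem result :
    Infinite ℤ ∧ path.Connected ∧ (∀ v, (path.neighborSet v).Finite) ∧ IsVertexTransitive path ∧
      IsSubScaleInvariant path ∧
      ∀ k : ℕ, 1 ≤ k → ∀ N : Set ℤ, IsNet path k N →
        (netGraph path k N).Connected ∧ bestConst path (netGraph path k N) = 1 := by
  refine ⟨inferInstance, path_connected, path_locally_finite, path_transitive, ?_, ?_⟩
  · intro N hN
    apply tendsto_const_nhds.congr'
    filter_upwards [eventually_ge_atTop 1] with k hk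
    exact (bestConst_path hk (hN k hk)).symm
  · intro k hk N hN
    exact ⟨(main (net_of hk hN)).1, bestConst_path hk hN⟩

end Pool.Agent.Results.MP_6f70ff_gt.InfinitePath
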